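import Pool.Agent.TH77.AN.Glob2
import Pool.Agent.TH370.J881
import Pool.Agent.TH883.J882

/-!
# Closures of analytic subgroups of pro-Lie groups

For every pro-Lie group `G` and every closed subalgebra `𝔥` of its Lie algebra the analytic subgroup
`A(𝔥)` is normal in its closure and the quotient is abelian.
-/

set_option autoImplicit false
set_option linter.unusedSectionVars false
set_option linter.style.haveILetI false

open Filter Topology Set
open scoped ContDiff Manifold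

namespace Pool.Agent.Results.MP_93228b_al.ClosureOfAnalyticSubgroup

universe u

/-- `Q` is a finite-dimensional real Lie group: it carries a smooth structure, compatible with its
topology, for which multiplication and inversion are smooth. -/
def IsLieGrp (Q : Type*) [Group Q] [TopologicalSpace Q] : Prop :=
  ∃ (n : ℕ) (_ : ChartedSpace (EuclideanSpace ℝ (Fin n)) Q),
    LieGroup (𝓘(ℝ, EuclideanSpace ℝ (Fin n))) ∞ Q

/-- Pro-Lie groups: Hausdorff topological groups which are complete (every left Cauchy filter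
converges) and in which every identity neighbourhood contains a closed normal subgroup `N` such that
`G ⧸ N` is a Lie group. -/
structure IsProLie (G : Type*) [Group G] [TopologicalSpace G] [IsTopologicalGroup G] : Prop where
  t2 : T2Space G
  complete : ∀ ℱ : Filter G, ℱ.NeBot →
    (∀ U ∈ 𝓝 (1 : G), ∃ A ∈ ℱ, ∀ x ∈ A, ∀ y ∈ A, x⁻¹ * y ∈ U) → ∃ g, ℱ ≤ 𝓝 g
  small : ∀ U ∈ 𝓝 (1 : G), ∃ (N : Subgroup G) (_ : N.Normal),
    IsClosed (N : Set G) ∧ (N : Set G) ⊆ U ∧ IsLieGrp (G ⧸ N)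

section
variable (G : Type*) [Group G] [TopologicalSpace G]

/-- The Lie algebra of `G` as a space: the continuous one-parameter subgroups `ℝ → G`, with the
compact-open topology (the topology of `C(ℝ, G)`). -/
def LieAlg : Type _ := {γ : C(ℝ, G) // ∀ s t : ℝ, γ (s + t) = γ s * γ t}

instance : TopologicalSpace (LieAlg G) :=
  inferInstanceAs (TopologicalSpace {γ : C(ℝ, G) // ∀ s t : ℝ, γ (s + t) = γ s * γ t})

instance : CoeFun (LieAlg G) (fun _ => ℝ → G) := ⟨fun γ => γ.1⟩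

variable {G}

/-- The scalar multiple `t ↦ γ (c t)`. -/
def LieAlg.smul (c : ℝ) (γ : LieAlg G) : LieAlg G :=
  ⟨⟨fun t => γ (c * t), γ.1.continuous.comp (continuous_const.mul continuous_id)⟩, fun s t => by
    change γ.1 (c * (s + t)) = γ.1 (c * s) * γ.1 (c * t)
    rw [mul_add, γ.2]⟩

/-- The zero element, the trivial one-parameter subgroup. -/
def LieAlg.zero : LieAlg G := ⟨ContinuousMap.const ℝ 1, fun _ _ => (mul_one (1 : G)).symm⟩

/-- `γ` is the sum of `γ₁` and `γ₂`: `γ(t) = lim (γ₁(t/n) γ₂(t/n))ⁿ`. -/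
def IsSum (γ₁ γ₂ γ : LieAlg G) : Prop :=
  ∀ t : ℝ, Tendsto (fun n : ℕ => (γ₁ (t / n) * γ₂ (t / n)) ^ n) atTop (𝓝 (γ t))

/-- `γ` is the bracket of `γ₁` and `γ₂`:
`γ(st) = lim (γ₁(s/n) γ₂(t/n) γ₁(s/n)⁻¹ γ₂(t/n)⁻¹)^(n²)`. -/
def IsBracket (γ₁ γ₂ γ : LieAlg G) : Prop :=
  ∀ s t : ℝ, Tendsto (fun n : ℕ => (γ₁ (s / n) * γ₂ (t / n) * (γ₁ (s / n))⁻¹ * (γ₂ (t / n))⁻¹) ^ (n ^ 2))
    atTop (𝓝 (γ (s * t)))

/-- Closed subalgebras of the Lie algebra. -/
structure IsClosedSubalgebra (𝔥 : Set (LieAlg G)) : Prop where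
  closed : IsClosed 𝔥
  zero : LieAlg.zero ∈ 𝔥
  smul : ∀ (c : ℝ), ∀ γ ∈ 𝔥, γ.smul c ∈ 𝔥
  add : ∀ γ₁ ∈ 𝔥, ∀ γ₂ ∈ 𝔥, ∀ γ, IsSum γ₁ γ₂ γ → γ ∈ 𝔥
  bracket : ∀ γ₁ ∈ 𝔥, ∀ γ₂ ∈ 𝔥, ∀ γ, IsBracket γ₁ γ₂ γ → γ ∈ 𝔥

/-- The analytic subgroup `A(𝔥)`, generated by the exponentials `exp γ = γ 1` of the elements of
`𝔥`. -/
def analytic (𝔥 : Set (LieAlg G)) : Subgroup G := Subgroup.closure {g | ∃ γ ∈ 𝔥, γ 1 = g}

end

/-! ### The embedding into a product -/

open Pool.Agent.TH77 Pool.Agent.TH77.PL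

section proof

variable {G : Type*} [Group G] [TopologicalSpace G] [IsTopologicalGroup G] [T2Space G]

/-- An embedding of `G` onto a closed subgroup of a product of groups with exponential charts. -/
structure Emb (G : Type*) [Group G] [TopologicalSpace G] {ι : Type*} {H : ι → Type*} [∀ i, Group (H i)]
    [∀ i, TopologicalSpace (H i)] (φ : G →* ∀ i, H i) : Prop where
  emb : IsEmbedding φ
  closed : IsClosed (range φ)

variable {ι : Type*} {H : ι → Type*} {E : ι → Type*} [∀ i, Group (H i)]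
  [∀ i, TopologicalSpace (H i)] [∀ i, IsTopologicalGroup (H i)] [∀ i, T2Space (H i)]
  [∀ i, NormedAddCommGroup (E i)] [∀ i, NormedSpace ℝ (E i)] [∀ i, FiniteDimensional ℝ (E i)]
  (L : ∀ i, LG (H i) (E i)) {φ : G →* ∀ i, H i} (hφ : Emb G φ)

/-- `γ` corresponds to `X`. -/
def Corr (φ : G →* ∀ i, H i) (γ : LieAlg G) (X : ∀ i, E i) : Prop := ∀ t : ℝ, φ (γ t) = ex L (t • X)

include hφ in
lemma exists_X (γ : LieAlg G) : ∃ X : ∀ i, E i, Corr L φ γ X := by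
  have h1 : ∀ i, ∃ x : E i, ∀ t : ℝ, φ (γ t) i = (L i).exp (t • x) := by
    intro i
    refine (L i).exists_oneParam (c := fun t => φ (γ t) i) ?_ ?_
    · exact (continuous_apply i).comp (hφ.emb.continuous.comp γ.1.continuous)
    · intro s t
      rw [γ.2, map_mul]
      rfl
  choose X hX using h1
  exact ⟨X, fun t => funext fun i => hX i t⟩

lemma corr_unique {γ : LieAlg G} {X Y : ∀ i, E i} (hX : Corr L φ γ X) (hY : Corr L φ γ Y) : X = Y := by
  funext i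
  refine (L i).eq_of_forall_exp fun t => ?_
  have h1 := congrFun ((hX t).symm.trans (hY t)) i
  exact h1

include hφ in
lemma corr_inj {γ γ' : LieAlg G} {X : ∀ i, E i} (h : Corr L φ γ X) (h' : Corr L φ γ' X) : γ = γ' := by
  refine Subtype.ext (ContinuousMap.ext fun t => ?_)
  exact hφ.emb.injective ((h t).trans (h' t).symm)

include hφ in
lemma isClosed_rangeφ : IsClosed ((φ.range : Subgroup (∀ i, H i)) : Set (∀ i, H i)) := by
  have h1 : ((φ.range : Subgroup (∀ i, H i)) : Set (∀ i, H i)) = range φ := rfl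
  rw [h1]
  exact hφ.closed

include hφ in
/-- The inverse correspondence is continuous for the compact-open topology. -/
lemma exists_psi : ∃ Ψ : gL L φ.range (isClosed_rangeφ hφ) → LieAlg G, Continuous Ψ ∧
    ∀ X, Corr L φ (Ψ X) (X : ∀ i, E i) := by
  set 𝔤 := gL L φ.range (isClosed_rangeφ hφ) with h𝔤
  have hmem : ∀ p : 𝔤 × ℝ, ∃ g : G, φ g = ex L (p.2 • (p.1 : ∀ i, E i)) := fun p => p.1.2 p.2
  choose f hf using hmem
  have hfc : Continuous f := by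
    rw [hφ.emb.continuous_iff]
    have h1 : (φ : G → ∀ i, H i) ∘ f = fun p => ex L (p.2 • (p.1 : ∀ i, E i)) := funext hf
    rw [h1]
    exact (continuous_ex L).comp (by fun_prop)
  let F : C(𝔤 × ℝ, G) := ⟨f, hfc⟩
  refine ⟨fun X => ⟨F.curry X, fun s t => ?_⟩, ?_, fun X t => hf (X, t)⟩
  · refine hφ.emb.injective ?_
    change φ (f (X, s + t)) = φ (f (X, s) * f (X, t))
    rw [map_mul, hf, hf, hf]
    exact ex_add_smul L s t _
  · exact Continuous.subtype_mk F.curry.continuous _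

/-- trotter with the indexing of the definition -/
lemma tendsto_shift {X : Type*} [TopologicalSpace X] {f : ℕ → X} {x : X}
    (h : Tendsto (fun n => f (n + 1)) atTop (𝓝 x)) : Tendsto f atTop (𝓝 x) :=
  (tendsto_add_atTop_iff_nat 1).1 h

include hφ in
lemma isSum_of_corr {γ₁ γ₂ γ : LieAlg G} {X Y : ∀ i, E i} (h₁ : Corr L φ γ₁ X) (h₂ : Corr L φ γ₂ Y)
    (h : Corr L φ γ (X + Y)) : IsSum γ₁ γ₂ γ := by
  intro t
  refine tendsto_shift ?_
  rw [hφ.emb.tendsto_nhds_iff, h t, smul_add]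
  refine (trotterP L (t • X) (t • Y)).congr fun n => ?_
  rw [Function.comp_apply, map_pow, map_mul, h₁, h₂, smul_smul, smul_smul]
  push_cast
  rw [one_div_mul_eq_div]

include hφ in
lemma bracket_tendsto {γ₁ γ₂ : LieAlg G} {X Y : ∀ i, E i} (h₁ : Corr L φ γ₁ X) (h₂ : Corr L φ γ₂ Y)
    (s t : ℝ) : Tendsto (fun n : ℕ => φ ((γ₁ (s / (n + 1 : ℕ)) * γ₂ (t / (n + 1 : ℕ)) *
      (γ₁ (s / (n + 1 : ℕ)))⁻¹ * (γ₂ (t / (n + 1 : ℕ)))⁻¹) ^ ((n + 1) ^ 2))) atTop
      (𝓝 (ex L ((s * t) • brP L X Y))) := by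
  rw [tendsto_pi_nhds]
  intro i
  have h3 := (L i).bracket_lim (s • X i) (t • Y i)
  have h4 : (L i).ad (s • X i) (t • Y i) = (s * t) • (L i).ad (X i) (Y i) := by
    rw [map_smul, map_smul]
    change t • (s • (L i).ad (X i) (Y i)) = _
    rw [smul_smul, mul_comm]
  rw [h4] at h3
  refine h3.congr fun n => ?_
  rw [map_pow, map_mul, map_mul, map_mul, map_inv, map_inv, h₁, h₂]
  simp only [Pi.pow_apply, Pi.mul_apply, Pi.inv_apply, ex_apply, Pi.smul_apply, smul_smul]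
  push_cast
  rw [one_div_mul_eq_div, one_div_mul_eq_div]

include hφ in
lemma isBracket_of_corr {γ₁ γ₂ γ : LieAlg G} {X Y : ∀ i, E i} (h₁ : Corr L φ γ₁ X)
    (h₂ : Corr L φ γ₂ Y) (h : Corr L φ γ (brP L X Y)) : IsBracket γ₁ γ₂ γ := by
  intro s t
  refine tendsto_shift ?_
  rw [hφ.emb.tendsto_nhds_iff, h (s * t)]
  exact bracket_tendsto L hφ h₁ h₂ s t

include hφ in
/-- the bracket of two elements of the Lie algebra exists -/
lemma brP_mem_gL {γ₁ γ₂ : LieAlg G} {X Y : ∀ i, E i} (h₁ : Corr L φ γ₁ X) (h₂ : Corr L φ γ₂ Y) :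
    brP L X Y ∈ gL L φ.range (isClosed_rangeφ hφ) := by
  intro t
  have h3 := bracket_tendsto L hφ h₁ h₂ t 1
  rw [mul_one] at h3
  exact (isClosed_rangeφ hφ).mem_of_tendsto h3 (Eventually.of_forall fun n => ⟨_, rfl⟩)

include hφ in
lemma mem_gL_of_corr {γ : LieAlg G} {X : ∀ i, E i} (h : Corr L φ γ X) :
    X ∈ gL L φ.range (isClosed_rangeφ hφ) := fun t => ⟨γ t, h t⟩

lemma isClosed_gL (K : Subgroup (∀ i, H i)) (hK : IsClosed (K : Set (∀ i, H i))) :
    IsClosed (gL L K hK : Set (∀ i, E i)) := by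
  have : (gL L K hK : Set (∀ i, E i)) = ⋂ t : ℝ, (fun X => ex L (t • X)) ⁻¹' (K : Set (∀ i, H i)) := by
    ext X
    simp only [mem_iInter]
    exact Iff.rfl
  rw [this]
  exact isClosed_iInter fun t => hK.preimage ((continuous_ex L).comp (by fun_prop))

include L hφ in
/-- The main theorem for embedded groups. -/
theorem main_emb {𝔥 : Set (LieAlg G)} (h𝔥 : IsClosedSubalgebra 𝔥) :
    (∀ x ∈ (analytic 𝔥).topologicalClosure, ∀ y ∈ analytic 𝔥, x * y * x⁻¹ ∈ analytic 𝔥) ∧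
    ∀ x ∈ (analytic 𝔥).topologicalClosure, ∀ y ∈ (analytic 𝔥).topologicalClosure,
      x * y * x⁻¹ * y⁻¹ ∈ analytic 𝔥 := by
  obtain ⟨Ψ, hΨc, hΨ⟩ := exists_psi L hφ
  let 𝔤 := gL L φ.range (isClosed_rangeφ hφ)
  -- the corresponding subspace of the product
  let h : Submodule ℝ (∀ i, E i) :=
    { carrier := {X | ∃ γ ∈ 𝔥, Corr L φ γ X}
      zero_mem' := ⟨LieAlg.zero, h𝔥.zero, fun t => by
        rw [smul_zero, ex_zero]
        exact map_one φ⟩
      add_mem' := by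
        rintro X Y ⟨γ₁, h₁, hX⟩ ⟨γ₂, h₂, hY⟩
        have h3 : X + Y ∈ 𝔤 := 𝔤.add_mem (mem_gL_of_corr L hφ hX) (mem_gL_of_corr L hφ hY)
        exact ⟨Ψ ⟨X + Y, h3⟩, h𝔥.add γ₁ h₁ γ₂ h₂ _ (isSum_of_corr L hφ hX hY (hΨ ⟨X + Y, h3⟩)),
          hΨ ⟨X + Y, h3⟩⟩
      smul_mem' := by
        rintro c X ⟨γ, h₁, hX⟩
        refine ⟨γ.smul c, h𝔥.smul c γ h₁, fun t => ?_⟩
        rw [smul_smul, mul_comm t c]
        exact hX (c * t) }
  have hmem : ∀ X, X ∈ h ↔ ∃ γ ∈ 𝔥, Corr L φ γ X := fun X => Iff.rfl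
  have hcl : IsClosed (h : Set (∀ i, E i)) := by
    have h1 : (h : Set (∀ i, E i)) = Subtype.val '' (Ψ ⁻¹' 𝔥) := by
      ext X
      constructor
      · rintro ⟨γ, hγ, hX⟩
        refine ⟨⟨X, mem_gL_of_corr L hφ hX⟩, ?_, rfl⟩
        have h2 := hΨ ⟨X, mem_gL_of_corr L hφ hX⟩
        have h3 := corr_inj L hφ h2 hX
        change Ψ _ ∈ 𝔥
        rw [h3]; exact hγ
      · rintro ⟨X, hX, rfl⟩
        exact ⟨Ψ X, hX, hΨ X⟩
    rw [h1]
    exact (isClosed_gL L φ.range (isClosed_rangeφ hφ)).isClosedEmbedding_subtypeVal.isClosedMap _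
      (h𝔥.closed.preimage hΨc)
  have hlie : ∀ X ∈ h, ∀ Y ∈ h, brP L X Y ∈ h := by
    rintro X ⟨γ₁, h₁, hX⟩ Y ⟨γ₂, h₂, hY⟩
    have h3 : brP L X Y ∈ 𝔤 := brP_mem_gL L hφ hX hY
    exact ⟨Ψ ⟨_, h3⟩, h𝔥.bracket γ₁ h₁ γ₂ h₂ _ (isBracket_of_corr L hφ hX hY (hΨ ⟨_, h3⟩)),
      hΨ ⟨_, h3⟩⟩
  -- the analytic subgroups correspond
  have hA : (analytic 𝔥).map φ = LS L h := by
    rw [analytic, MonoidHom.map_closure, LS]
    congr 1
    ext x
    constructor
    · rintro ⟨_, ⟨γ, hγ, rfl⟩, rfl⟩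
      obtain ⟨X, hX⟩ := exists_X L hφ γ
      refine ⟨X, ⟨γ, hγ, hX⟩, ?_⟩
      have := hX 1
      rw [one_smul] at this
      exact this.symm
    · rintro ⟨X, ⟨γ, hγ, hX⟩, rfl⟩
      refine ⟨γ 1, ⟨γ, hγ, rfl⟩, ?_⟩
      have := hX 1
      rwa [one_smul] at this
  have hmemA : ∀ g, g ∈ analytic 𝔥 ↔ φ g ∈ LS L h := by
    intro g
    rw [← hA]
    constructor
    · intro hg; exact ⟨g, hg, rfl⟩
    · rintro ⟨g', hg', he⟩
      rwa [← hφ.emb.injective he]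
  have hmemcl : ∀ g ∈ (analytic 𝔥).topologicalClosure, φ g ∈ (LS L h).topologicalClosure := by
    intro g hg
    have h1 : g ∈ closure (analytic 𝔥 : Set G) := hg
    have h2 : φ g ∈ closure (φ '' (analytic 𝔥 : Set G)) :=
      image_closure_subset_closure_image hφ.emb.continuous ⟨g, h1, rfl⟩
    refine closure_mono ?_ h2
    rintro _ ⟨a, ha, rfl⟩
    exact (hmemA a).1 ha
  obtain ⟨hn, hc⟩ := comm_mem L (LS L h).topologicalClosure (Subgroup.isClosed_topologicalClosure _) h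
    hcl hlie rfl
  refine ⟨fun x hx y hy => ?_, fun x hx y hy => ?_⟩
  · rw [hmemA, map_mul, map_mul, map_inv]
    exact hn _ (hmemcl x hx) _ ((hmemA y).1 hy)
  · rw [hmemA, map_mul, map_mul, map_mul, map_inv, map_inv]
    exact hc _ (hmemcl x hx) _ (hmemcl y hy)

end proof

/-- Every pro-Lie group embeds as a closed subgroup in a product of Lie groups. -/
theorem exists_emb {G : Type u} [Group G] [TopologicalSpace G] [IsTopologicalGroup G] (hG : IsProLie G) :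
    ∃ (ι : Type u) (H : ι → Type u) (E : ι → Type) (_ : ∀ i, Group (H i))
      (_ : ∀ i, TopologicalSpace (H i)) (_ : ∀ i, IsTopologicalGroup (H i)) (_ : ∀ i, T2Space (H i))
      (_ : ∀ i, NormedAddCommGroup (E i)) (_ : ∀ i, NormedSpace ℝ (E i))
      (_ : ∀ i, FiniteDimensional ℝ (E i)) (_ : ∀ i, LG (H i) (E i)) (φ : G →* ∀ i, H i), Emb G φ := by
  haveI := hG.t2
  let ι := {N : Subgroup G // ∃ (_ : N.Normal), IsClosed (N : Set G) ∧ IsLieGrp (G ⧸ N)}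
  haveI hnorm : ∀ i : ι, i.1.Normal := fun i => i.2.1
  haveI hcl : ∀ i : ι, IsClosed (i.1 : Set G) := fun i => i.2.2.1
  have hlie : ∀ i : ι, IsLieGrp (G ⧸ i.1) := fun i => i.2.2.2
  choose n ch hch using hlie
  letI : ∀ i : ι, ChartedSpace (EuclideanSpace ℝ (Fin (n i))) (G ⧸ i.1) := ch
  haveI : ∀ i : ι, LieGroup (𝓘(ℝ, EuclideanSpace ℝ (Fin (n i)))) ∞ (G ⧸ i.1) := hch
  have hL : ∀ i : ι, Nonempty (LG (G ⧸ i.1) (EuclideanSpace ℝ (Fin (n i)))) := fun i => exists_LG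
  let φ : G →* ∀ i : ι, G ⧸ i.1 := MonoidHom.pi fun i => QuotientGroup.mk' i.1
  have hφ : Emb G φ := by
    have h1 := Pool.Agent.TH77.AN.embed_prod hG.complete (fun i : ι => i.1) hcl (fun U hU => by
      obtain ⟨N, hN, h2, h3, h4⟩ := hG.small U hU
      exact ⟨⟨N, hN, h2, h4⟩, h3⟩)
    exact ⟨h1.1, h1.2⟩
  exact ⟨ι, fun i => G ⧸ i.1, fun i => EuclideanSpace ℝ (Fin (n i)), inferInstance, inferInstance,
    inferInstance, inferInstance, inferInstance, inferInstance, inferInstance, fun i => (hL i).some, φ, hφ⟩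

/-- Sanity check: in a pro-Lie group sums and brackets of one-parameter subgroups exist. -/
theorem exists_sum_bracket {G : Type*} [Group G] [TopologicalSpace G] [IsTopologicalGroup G]
    (hG : IsProLie G) (γ₁ γ₂ : LieAlg G) :
    (∃ γ, IsSum γ₁ γ₂ γ) ∧ ∃ γ, IsBracket γ₁ γ₂ γ := by
  haveI := hG.t2
  obtain ⟨ι, H, E, _, _, _, _, _, _, _, L, φ, hφ⟩ := exists_emb hG
  obtain ⟨Ψ, -, hΨ⟩ := exists_psi L hφ
  obtain ⟨X, hX⟩ := exists_X L hφ γ₁
  obtain ⟨Y, hY⟩ := exists_X L hφ γ₂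
  exact ⟨⟨_, isSum_of_corr L hφ hX hY (hΨ ⟨X + Y, (gL L φ.range (isClosed_rangeφ hφ)).add_mem
    (mem_gL_of_corr L hφ hX) (mem_gL_of_corr L hφ hY)⟩)⟩,
    ⟨_, isBracket_of_corr L hφ hX hY (hΨ ⟨brP L X Y, brP_mem_gL L hφ hX hY⟩)⟩⟩

/-- The theorem for pro-Lie groups: embed the group in a product of Lie groups. -/
theorem main {G : Type*} [Group G] [TopologicalSpace G] [IsTopologicalGroup G] (hG : IsProLie G)
    {𝔥 : Set (LieAlg G)} (h𝔥 : IsClosedSubalgebra 𝔥) :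
    (∀ x ∈ (analytic 𝔥).topologicalClosure, ∀ y ∈ analytic 𝔥, x * y * x⁻¹ ∈ analytic 𝔥) ∧
    ∀ x ∈ (analytic 𝔥).topologicalClosure, ∀ y ∈ (analytic 𝔥).topologicalClosure,
      x * y * x⁻¹ * y⁻¹ ∈ analytic 𝔥 := by
  haveI := hG.t2
  obtain ⟨ι, H, E, _, _, _, _, _, _, _, L, φ, hφ⟩ := exists_emb hG
  exact main_emb L hφ h𝔥

/-- **Theorem.** Let `G` be a pro-Lie group (connected or not) and `𝔥` a closed subalgebra of its Lie
algebra, with analytic subgroup `A = A(𝔥)`. Then `A` is normal in its closure, and all commutators of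
elements of the closure lie in `A`, that is, the quotient `closure A / A` is abelian. -/
theorem result : ∀ (G : Type*) [Group G] [TopologicalSpace G] [IsTopologicalGroup G], IsProLie G →
    ∀ 𝔥 : Set (LieAlg G), IsClosedSubalgebra 𝔥 →
      (∀ x ∈ closure (analytic 𝔥 : Set G), ∀ y ∈ analytic 𝔥, x * y * x⁻¹ ∈ analytic 𝔥) ∧
      ∀ x ∈ closure (analytic 𝔥 : Set G), ∀ y ∈ closure (analytic 𝔥 : Set G),
        x * y * x⁻¹ * y⁻¹ ∈ analytic 𝔥 := by
  intro G _ _ _ hG 𝔥 h𝔥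
  exact main hG h𝔥

end Pool.Agent.Results.MP_93228b_al.ClosureOfAnalyticSubgroup
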